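import Mathlib
import Pool.Agent.H.MP_df87fb_al.A

set_option autoImplicit false

namespace Pool.Agent.Results.MP_df87fb_al.LogFT

open Polynomial

noncomputable def act (M : GL (Fin 2) ℤ) :
    Multiplicative ℤ →* MulAut (Multiplicative (Fin 2 → ℤ)) :=
  zpowersHom _ (AddEquiv.toMultiplicative
    (Matrix.GeneralLinearGroup.toLin M).toLinearEquiv.toAddEquiv)

def ev {G : Type} [Group G] {k : ℕ} (X : Fin k → G) (w : List (Fin k × Bool)) : G :=
  (w.map fun s => if s.2 then X s.1 else (X s.1)⁻¹).prod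

theorem result (M : GL (Fin 2) ℤ) (l m : ℝ)
    (hM : ((M : Matrix (Fin 2) (Fin 2) ℤ).map (Int.cast : ℤ → ℝ)).charpoly = (X - C l) * (X - C m))
    (hl : l ≠ 1 ∧ l ≠ -1) (hm : m ≠ 1 ∧ m ≠ -1) :
    ∃ (k : ℕ) (x : Fin k → Multiplicative (Fin 2 → ℤ) ⋊[act M] Multiplicative ℤ)
      (L : Set (List (Fin k × Bool))),
      Set.BijOn (ev x) L Set.univ ∧
      (∀ w ∈ L, ∀ u, u <+: w → u ∈ L) ∧
      ∃ c : ℕ, ∀ n : ℕ, ∀ w₁ ∈ L, ∀ w₂ ∈ L, ∀ i : Fin k, ev x w₁ * x i = ev x w₂ →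
        ∀ t ≤ n, ∃ w : List (Fin k × Bool),
          ev x (w₁.take t) * ev x w = ev x (w₂.take t) ∧ w.length ≤ c * (Nat.log 2 n + 1) := by
  open Pool.Agent.H.MP_df87fb_al SemidirectProduct Multiplicative in
  have hact : ∀ v : Fin 2 → ℤ, act M (ofAdd 1) (ofAdd v) =
      ofAdd ((M : Matrix (Fin 2) (Fin 2) ℤ).mulVec v) := by
    intro v
    simp [act]
  set A : Matrix (Fin 2) (Fin 2) ℤ := (M : Matrix (Fin 2) (Fin 2) ℤ) with hA
  have hdet : A.det * A.det = 1 := by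
    have := Int.isUnit_iff.1 (Matrix.GeneralLinearGroup.det M).isUnit
    have h2 : ((Matrix.GeneralLinearGroup.det M : ℤˣ) : ℤ) = A.det := rfl
    rw [h2] at this
    rcases this with h | h <;> rw [h] <;> norm_num
  rw [Matrix.det_fin_two] at hdet
  let T : ℤ := (A 0 0 + A 1 1) ^ 2 - 2 * (A 0 0 * A 1 1 - A 0 1 * A 1 0)
  have hT : 3 ≤ T := by
    rw [Matrix.charpoly_fin_two, Matrix.trace_fin_two, Matrix.det_fin_two] at hM
    have e0 := congrArg (Polynomial.eval 0) hM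
    have e1 := congrArg (Polynomial.eval 1) hM
    simp at e0 e1
    have hd : ((A 0 0 : ℝ) * A 1 1 - A 0 1 * A 1 0) * (A 0 0 * A 1 1 - A 0 1 * A 1 0) = 1 := by
      exact_mod_cast hdet
    have hT' : (T : ℝ) = l ^ 2 + m ^ 2 := by
      simp only [T]
      push_cast
      have : (A 0 0 : ℝ) + A 1 1 = l + m := by linarith
      rw [this, e0]; ring
    rw [e0] at hd
    have h1 : l ^ 2 - 1 ≠ 0 := by
      intro h
      have : (l - 1) * (l + 1) = 0 := by linarith
      rcases mul_eq_zero.1 this with h | h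
      · exact hl.1 (by linarith)
      · exact hl.2 (by linarith)
    have h2 : 0 < (l ^ 2 - 1) ^ 2 := by positivity
    have h3 : 0 < l ^ 2 := by
      have : l ≠ 0 := by rintro rfl; simp at hd
      positivity
    have h4 : (2 : ℝ) < T := by
      rw [hT']
      by_contra hc
      have h5 := mul_le_mul_of_nonneg_left (not_lt.1 hc) h3.le
      nlinarith
    have : (2 : ℤ) < T := by exact_mod_cast h4
    omega
  let σ : MulAut (Multiplicative (Fin 2 → ℤ)) := act M (ofAdd 1) * act M (ofAdd 1)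
  have hσ : ∀ v, σ (σ v) * v = σ v ^ T := by
    intro v
    obtain ⟨v, rfl⟩ := ofAdd.surjective v
    simp only [σ, MulAut.mul_apply, hact, ← ofAdd_add, ← ofAdd_zsmul]
    congr 1
    ext i
    fin_cases i
    · simp [T]
      linear_combination (-(v 0)) * hdet
    · simp [T]
      linear_combination (-(v 1)) * hdet
  let x : Fin 3 → Multiplicative (Fin 2 → ℤ) ⋊[act M] Multiplicative ℤ :=
    ![inl (ofAdd ![1, 0]), inl (ofAdd ![0, 1]), inr (ofAdd 1)]
  let nf : ℤ → ℤ → ℤ → List (Fin 3 × Bool) := fun k a b => pw 2 k ++ pw 0 a ++ pw 1 b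
  have hevv : ∀ w, ev x w = H.MP_df87fb_al.ev x w := fun w => rfl
  have hev0 : ∀ k a b, ev x (nf k a b) = x 2 ^ k * x 0 ^ a * x 1 ^ b := by
    intro k a b
    rw [hevv, ev_append, ev_append, ev_pw, ev_pw, ev_pw]
  have hev : ∀ k a b, ev x (nf k a b) = inr (ofAdd k) * inl (ofAdd ![a, b]) := by
    intro k a b
    rw [hev0, mul_assoc]
    congr 1
    · show inr (ofAdd 1) ^ k = _
      rw [← map_zpow, ← ofAdd_zsmul]; simp
    · show inl (ofAdd ![1, 0]) ^ a * inl (ofAdd ![0, 1]) ^ b = _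
      rw [← map_zpow inl, ← map_zpow inl, ← map_mul inl, ← ofAdd_zsmul, ← ofAdd_zsmul, ← ofAdd_add]
      congr 2
      ext i
      fin_cases i <;> simp
  have htake : ∀ k a b (s : ℕ), ∃ s1 ≤ s, ∃ s2 ≤ s,
      (nf k a b).take s = nf (tr k s) (tr a s1) (tr b s2) := by
    intro k a b s
    refine ⟨s - (pw (2 : Fin 3) k).length, by omega,
      s - (pw (2 : Fin 3) k ++ pw (0 : Fin 3) a).length, by omega, ?_⟩
    simp only [nf]
    rw [List.take_append, List.take_append, take_pw, take_pw, take_pw]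
  have hdis : ∀ (i : Fin 3) (e : Multiplicative (Fin 2 → ℤ)), inl e = x i → ∀ (z : ℤ) (n : ℕ),
      z.natAbs ≤ n → Len x (x i ^ z) ((2 * T.natAbs + 9) * (Nat.log 2 n + 1)) := by
    intro i e he z n hz
    refine distort x inl σ (x 2 ^ (2 : ℤ)) (len_zpow x 2 2) ?_ T hT hσ i e he z n hz
    intro v
    simp only [σ, MulAut.mul_apply, inl_aut]
    show _ = inr (ofAdd 1) ^ (2 : ℤ) * inl v * (inr (ofAdd 1) ^ (2 : ℤ))⁻¹
    rw [zpow_two, map_inv]
    group
  refine ⟨3, x, {w | ∃ k a b, w = nf k a b}, ⟨fun _ _ => trivial, ?_, ?_⟩, ?_,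
    4 * (2 * T.natAbs + 9) + 1, ?_⟩
  · rintro _ ⟨k, a, b, rfl⟩ _ ⟨k', a', b', rfl⟩ h
    rw [hev, hev] at h
    have h1 : k = k' := by simpa using congrArg rightHom h
    subst h1
    have h2 := ofAdd.injective (inl_injective (mul_left_cancel h))
    have h3 : a = a' := by simpa using congrFun h2 0
    have h4 : b = b' := by simpa using congrFun h2 1
    rw [h3, h4]
  · intro g _
    let v : Fin 2 → ℤ := toAdd ((act M g.right)⁻¹ g.left)
    refine ⟨nf (toAdd g.right) (v 0) (v 1), ⟨_, _, _, rfl⟩, ?_⟩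
    have : ![v 0, v 1] = v := by ext i; fin_cases i <;> rfl
    rw [hev, this]
    ext <;> simp [v]
  · rintro _ ⟨k, a, b, rfl⟩ u hu
    obtain ⟨s1, -, s2, -, h⟩ := htake k a b u.length
    rw [List.prefix_iff_eq_take.1 hu, h]
    exact ⟨_, _, _, rfl⟩
  · rintro n _ ⟨k, a, b, rfl⟩ _ ⟨k', a', b', rfl⟩ i h t ht
    have hk : (k' - k).natAbs ≤ 1 := by
      rw [hev, hev] at h
      have h1 := congrArg (fun g => toAdd (rightHom g)) h
      fin_cases i <;> simp [x] at h1 <;> omega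
    obtain ⟨s1, hs1, s2, hs2, h1⟩ := htake k a b t
    obtain ⟨s3, hs3, s4, hs4, h2⟩ := htake k' a' b' t
    have l1 := hdis 0 _ rfl _ n ((tr_le a s1).trans (hs1.trans ht))
    have l2 := hdis 1 _ rfl _ n ((tr_le b s2).trans (hs2.trans ht))
    have l3 := hdis 0 _ rfl _ n ((tr_le a' s3).trans (hs3.trans ht))
    have l4 := hdis 1 _ rfl _ n ((tr_le b' s4).trans (hs4.trans ht))
    have l5 := (len_zpow x 2 (tr k' t - tr k t)).mono x ((tr_sub k' k t).trans hk)
    obtain ⟨w, hw, hlen⟩ := ((((l2.inv x).mul x (l1.inv x)).mul x l5).mul x l3).mul x l4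
    refine ⟨w, ?_, hlen.trans (by nlinarith)⟩
    rw [h1, h2, hev0, hev0, hevv, hw]
    group

end Pool.Agent.Results.MP_df87fb_al.LogFT
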